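import Mathlib

/-!
# Lower subindex 2 and arbitrary infinite upper subindex

Let `V` be the elementary abelian 2-group with basis `e i`, `i ∈ I`, `|I| = α`, and let `b` be a sum
of five basis vectors. There is a subset `A` of `V` whose differences are exactly the elements not
of the form `e i + e j` (`i ≠ j`) or `b`. Then `{0, b}` is a subfactor, and so is some set
containing all the `e i`.
-/

set_option autoImplicit false

open Cardinal Set

universe u

namespace Pool.Agent.Results.MP_453038_al.Subindices

/-- the product `A B` is direct -/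
def Direct {G : Type u} [Group G] (A B : Set G) : Prop :=
  ∀ a ∈ A, ∀ b ∈ B, ∀ a' ∈ A, ∀ b' ∈ B, a * b = a' * b' → a = a' ∧ b = b'

/-- `B` is a right subfactor related to `A` -/
def Subfactor {G : Type u} [Group G] (A B : Set G) : Prop := Maximal (Direct A) B

/-- the right lower subindex -/
noncomputable def lower {G : Type u} [Group G] (A : Set G) : Cardinal.{u} :=
  sInf {c | ∃ B, Subfactor A B ∧ c = #B}

/-- the right upper subindex -/
noncomputable def upper {G : Type u} [Group G] (A : Set G) : Cardinal.{u} :=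
  sSup {c | ∃ B, Subfactor A B ∧ c = #B}

section

variable {I : Type u}

lemma card_V (I : Type u) [Infinite I] : #(I →₀ ZMod 2) = #I := by
  rw [Cardinal.mk_finsupp_lift_of_infinite, Cardinal.lift_uzero]
  refine max_eq_left (le_trans ?_ (Cardinal.aleph0_le_mk I))
  rw [Cardinal.lift_le_aleph0]
  exact Cardinal.mk_le_aleph0

/-- the weight -/
def wt (x : I →₀ ZMod 2) : ℕ := x.support.card

lemma wt_add (x y : I →₀ ZMod 2) : wt (x + y) ≤ wt x + wt y := by
  classical
  exact (Finset.card_le_card Finsupp.support_add).trans (Finset.card_union_le _ _)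

lemma add_self' (x : I →₀ ZMod 2) : x + x = 0 := by
  ext i
  simp only [Finsupp.add_apply, Finsupp.zero_apply]
  exact CharTwo.add_self_eq_zero _

lemma neg_eq' (x : I →₀ ZMod 2) : -x = x := neg_eq_of_add_eq_zero_left (add_self' x)

lemma wt_single (i : I) : wt (Finsupp.single i (1 : ZMod 2)) = 1 := by
  have h : (Finsupp.single i (1 : ZMod 2)).support = {i} := by
    ext k
    rw [Finsupp.mem_support_iff, Finset.mem_singleton]
    by_cases h : k = i
    · subst h
      simp
    · rw [Finsupp.single_eq_of_ne h]
      simp [h]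
  rw [wt, h, Finset.card_singleton]

/-- the indicator vector of a finite set -/
noncomputable def xv (S : Finset I) : I →₀ ZMod 2 := Finsupp.indicator S fun _ _ => 1

lemma support_xv (S : Finset I) : (xv S).support = S := by
  classical
  ext i
  rw [Finsupp.mem_support_iff, xv, Finsupp.indicator_apply]
  by_cases h : i ∈ S <;> simp [h]

lemma wt_xv_add {S T : Finset I} (h : Disjoint S T) : wt (xv S + xv T) = S.card + T.card := by
  classical
  rw [wt, Finsupp.support_add_eq, support_xv, support_xv, Finset.card_union_of_disjoint h]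
  rwa [support_xv, support_xv]

/-- the exceptional set -/
def E (b : I →₀ ZMod 2) : Set (I →₀ ZMod 2) :=
  {x | (∃ i j, i ≠ j ∧ x = Finsupp.single i 1 + Finsupp.single j 1) ∨ x = b}

lemma single_add_ne {i j : I} (h : i ≠ j) :
    (Finsupp.single i 1 + Finsupp.single j 1 : I →₀ ZMod 2) ≠ 0 := by
  intro h0
  have := DFunLike.congr_fun h0 i
  rw [Finsupp.add_apply, Finsupp.single_eq_same, Finsupp.single_eq_of_ne h] at this
  simp at this

lemma zero_notMem_E {b : I →₀ ZMod 2} (hb : wt b = 5) : (0 : I →₀ ZMod 2) ∉ E b := by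
  rintro (⟨i, j, hij, h⟩ | h)
  · exact single_add_ne hij h.symm
  · rw [← h] at hb
    simp [wt] at hb

lemma E_disjoint {b : I →₀ ZMod 2} (hb : wt b = 5) {x : I →₀ ZMod 2} (h : x ∈ E b) :
    x + b ∉ E b := by
  have hb0 : b ≠ 0 := by
    rintro rfl
    simp [wt] at hb
  have h2 : ∀ i j : I, wt (Finsupp.single i 1 + Finsupp.single j 1 : I →₀ ZMod 2) ≤ 2 := by
    intro i j
    have := wt_add (Finsupp.single i 1) (Finsupp.single j (1 : ZMod 2))
    rwa [wt_single, wt_single] at this
  rcases h with ⟨i, j, hij, rfl⟩ | rfl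
  · rintro (⟨k, l, hkl, h⟩ | h)
    · have h3 : b = (Finsupp.single i 1 + Finsupp.single j 1) +
          (Finsupp.single k 1 + Finsupp.single l 1) := by
        rw [← h, ← add_assoc, add_self', zero_add]
      have h4 := wt_add (Finsupp.single i 1 + Finsupp.single j 1)
        (Finsupp.single k 1 + Finsupp.single l (1 : ZMod 2))
      rw [← h3, hb] at h4
      linarith [h2 i j, h2 k l]
    · exact single_add_ne hij (by simpa using h)
  · rw [add_self']
    exact zero_notMem_E hb

lemma wt_le_of_mem_E {b x : I →₀ ZMod 2} (hb : wt b = 5) (h : x ∈ E b) : wt x ≤ 5 := by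
  rcases h with ⟨i, j, hij, rfl⟩ | rfl
  · have := wt_add (Finsupp.single i 1) (Finsupp.single j (1 : ZMod 2))
    rw [wt_single, wt_single] at this
    omega
  · exact hb.le

variable (j : (I →₀ ZMod 2) × ℕ ↪ I) (b : I →₀ ZMod 2)

/-- the finite sets of indices -/
def S (g : I →₀ ZMod 2) : Finset I :=
  (Finset.range (2 * wt g + 6)).map ⟨fun k => j (g, k), fun k l h => by
    have := j.injective h
    exact (Prod.mk.inj this).2⟩

lemma card_S (g : I →₀ ZMod 2) : (S j g).card = 2 * wt g + 6 := by
  rw [S, Finset.card_map, Finset.card_range]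

lemma disjoint_S {g h : I →₀ ZMod 2} (hgh : g ≠ h) : Disjoint (S j g) (S j h) := by
  rw [Finset.disjoint_left]
  intro i h1 h2
  rw [S, Finset.mem_map] at h1 h2
  obtain ⟨k, _, rfl⟩ := h1
  obtain ⟨l, _, h3⟩ := h2
  have := j.injective h3
  exact hgh (Prod.mk.inj this).1.symm

/-- the set whose differences are the complement of `E` -/
def A0 : Set (I →₀ ZMod 2) := {x | ∃ g, g ∉ E b ∧ (x = xv (S j g) ∨ x = xv (S j g) + g)}

lemma mem_diff {b : I →₀ ZMod 2} (hb : wt b = 5) (v : I →₀ ZMod 2) :
    (∃ a ∈ A0 j b, ∃ a' ∈ A0 j b, a + a' = v) ↔ v ∉ E b := by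
  constructor
  · rintro ⟨a, ⟨g, hg, ha⟩, a', ⟨h, hh, ha'⟩, rfl⟩ hE
    by_cases hgh : g = h
    · subst hgh
      rcases ha with rfl | rfl <;> rcases ha' with rfl | rfl
      · rw [add_self'] at hE
        exact zero_notMem_E hb hE
      · rw [← add_assoc, add_self', zero_add] at hE
        exact hg hE
      · rw [add_right_comm, add_self', zero_add] at hE
        exact hg hE
      · rw [add_self'] at hE
        exact zero_notMem_E hb hE
    · have h1 := wt_xv_add (disjoint_S j hgh)
      rw [card_S, card_S] at h1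
      have h2 := wt_le_of_mem_E hb hE
      obtain ⟨p, hp, hp2⟩ : ∃ p, a = xv (S j g) + p ∧ wt p ≤ wt g := by
        rcases ha with rfl | rfl
        · exact ⟨0, by simp, by simp [wt]⟩
        · exact ⟨g, rfl, le_rfl⟩
      obtain ⟨q, hq, hq2⟩ : ∃ q, a' = xv (S j h) + q ∧ wt q ≤ wt h := by
        rcases ha' with rfl | rfl
        · exact ⟨0, by simp, by simp [wt]⟩
        · exact ⟨h, rfl, le_rfl⟩
      have h3 : xv (S j g) + xv (S j h) = (a + a') + (p + q) := by
        rw [hp, hq]
        have : xv (S j g) + p + (xv (S j h) + q) + (p + q) =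
            xv (S j g) + xv (S j h) + (p + p) + (q + q) := by abel
        rw [this, add_self', add_self', add_zero, add_zero]
      rw [h3] at h1
      have h4 := wt_add (a + a') (p + q)
      have h5 := wt_add p q
      omega
  · intro hv
    exact ⟨_, ⟨v, hv, Or.inr rfl⟩, _, ⟨v, hv, Or.inl rfl⟩, by
      rw [add_right_comm, add_self', zero_add]⟩

variable (N : Type u) [Group N]

/-- the set `A` in the product with `N` -/
def A : Set (Multiplicative (I →₀ ZMod 2) × N) := {x | x.1.toAdd ∈ A0 j b}

variable {N} {b}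

lemma direct_iff (hb : wt b = 5) (B : Set (Multiplicative (I →₀ ZMod 2) × N)) :
    Direct (A j b N) B ↔ ∀ x ∈ B, ∀ y ∈ B, x ≠ y → x.1.toAdd + y.1.toAdd ∈ E b := by
  constructor
  · intro h x hx y hy hxy
    by_contra hne
    obtain ⟨a, ha, a', ha', e⟩ := (mem_diff j hb _).2 hne
    have h1 := h (Multiplicative.ofAdd a, x.2⁻¹) ha x hx (Multiplicative.ofAdd a', y.2⁻¹) ha' y hy
      (by
        apply Prod.ext
        · show Multiplicative.ofAdd a * x.1 = Multiplicative.ofAdd a' * y.1
          apply Multiplicative.toAdd.injective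
          show a + x.1.toAdd = a' + y.1.toAdd
          have h3 : a' + (a + a') = a' + (x.1.toAdd + y.1.toAdd) := by rw [e]
          have h4 : a + x.1.toAdd = (a' + (a + a')) + x.1.toAdd := by
            rw [add_left_comm, add_self', add_zero]
          rw [h4, h3]
          have h5 : a' + (x.1.toAdd + y.1.toAdd) + x.1.toAdd =
            a' + y.1.toAdd + (x.1.toAdd + x.1.toAdd) := by abel
          rw [h5, add_self', add_zero]
        · show x.2⁻¹ * x.2 = y.2⁻¹ * y.2
          rw [inv_mul_cancel, inv_mul_cancel])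
    exact hxy h1.2
  · intro h a ha x hx a' ha' y hy e
    have hxy : x = y := by
      by_contra hne
      have h1 := h x hx y hy hne
      refine (mem_diff j hb _).1 ⟨a.1.toAdd, ha, a'.1.toAdd, ha', ?_⟩ h1
      have h2 : a.1.toAdd + x.1.toAdd = a'.1.toAdd + y.1.toAdd :=
        congrArg (fun z : Multiplicative (I →₀ ZMod 2) × N => z.1.toAdd) e
      have h3 : a.1.toAdd + a'.1.toAdd = (a.1.toAdd + x.1.toAdd) + x.1.toAdd + a'.1.toAdd := by
        rw [add_assoc a.1.toAdd, add_self', add_zero]
      rw [h3, h2]
      have h4 : a'.1.toAdd + y.1.toAdd + x.1.toAdd + a'.1.toAdd =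
        x.1.toAdd + y.1.toAdd + (a'.1.toAdd + a'.1.toAdd) := by abel
      rw [h4, add_self', add_zero]
    subst hxy
    exact ⟨mul_right_cancel e, rfl⟩

lemma lower_eq (hb : wt b = 5) : lower (A j b N) = 2 := by
  have hbE : b ∈ E b := Or.inr rfl
  have hb0 : b ≠ 0 := by
    rintro rfl
    simp [wt] at hb
  apply le_antisymm
  · -- the subfactor `{1, b}`
    have hne : ((1 : Multiplicative (I →₀ ZMod 2) × N)) ≠ (Multiplicative.ofAdd b, 1) := by
      intro h
      have : (0 : I →₀ ZMod 2) = b :=
        congrArg (fun z : Multiplicative (I →₀ ZMod 2) × N => z.1.toAdd) h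
      exact hb0 this.symm
    refine csInf_le' ⟨{1, (Multiplicative.ofAdd b, 1)}, ⟨?_, ?_⟩, ?_⟩
    · rw [direct_iff j hb]
      intro x hx y hy hxy
      rcases hx with rfl | hx <;> rcases hy with rfl | hy
      · exact absurd rfl hxy
      · rw [mem_singleton_iff] at hy
        subst hy
        show (0 : I →₀ ZMod 2) + b ∈ E b
        rwa [zero_add]
      · rw [mem_singleton_iff] at hx
        subst hx
        show b + (0 : I →₀ ZMod 2) ∈ E b
        rwa [add_zero]
      · rw [mem_singleton_iff] at hx hy
        exact absurd (hx.trans hy.symm) hxy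
    · intro B hB hle c hc
      rw [direct_iff j hb] at hB
      by_contra hcne
      rw [mem_insert_iff, mem_singleton_iff, not_or] at hcne
      have h1 := hB c hc 1 (hle (mem_insert _ _)) hcne.1
      have h2 := hB c hc _ (hle (mem_insert_of_mem _ (mem_singleton _))) hcne.2
      have h3 : c.1.toAdd + 0 ∈ E b := h1
      have h4 : c.1.toAdd + b ∈ E b := h2
      rw [add_zero] at h3
      exact E_disjoint hb h3 h4
    · rw [mk_insert (by rwa [mem_singleton_iff]), mk_singleton]
      norm_num
  · refine le_csInf ?_ ?_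
    · obtain ⟨B, hB⟩ : ∃ B, Subfactor (A j b N) B := by
        obtain ⟨B, hB⟩ := zorn_subset {B | Direct (A j b N) B} (by
          intro c hc hch
          refine ⟨⋃₀ c, ?_, fun s hs => subset_sUnion_of_mem hs⟩
          show Direct _ _
          rw [direct_iff j hb]
          rintro x ⟨s, hs, hxs⟩ y ⟨t, ht, hyt⟩ hxy
          rcases hch.total hs ht with h | h
          · exact (direct_iff j hb t).1 (hc ht) x (h hxs) y hyt hxy
          · exact (direct_iff j hb s).1 (hc hs) x hxs y (h hyt) hxy)
        exact ⟨B, hB⟩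
      exact ⟨_, B, hB, rfl⟩
    · rintro _ ⟨B, hB, rfl⟩
      by_contra hlt
      rw [not_le] at hlt
      have hsub : B.Subsingleton := by
        intro x hx y hy
        by_contra hne
        have h2 : 2 ≤ #B := Cardinal.two_le_iff.2 ⟨⟨x, hx⟩, ⟨y, hy⟩, fun h => hne
          (congrArg Subtype.val h)⟩
        exact absurd hlt (not_lt.2 h2)
      rcases hsub.eq_empty_or_singleton with rfl | ⟨x, rfl⟩
      · have h1 : Direct (A j b N) {1} := by
          rw [direct_iff j hb]
          intro x hx y hy hxy
          rw [mem_singleton_iff] at hx hy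
          exact absurd (hx.trans hy.symm) hxy
        exact hB.2 h1 (empty_subset _) (mem_singleton _)
      · have hne : (Multiplicative.ofAdd b * x.1, x.2) ≠ x := by
          intro h
          have h2 : b + x.1.toAdd = x.1.toAdd :=
            congrArg (fun z : Multiplicative (I →₀ ZMod 2) × N => z.1.toAdd) h
          exact hb0 (by simpa using h2)
        have h1 : Direct (A j b N) {x, (Multiplicative.ofAdd b * x.1, x.2)} := by
          rw [direct_iff j hb]
          intro y hy z hz hyz
          rw [mem_insert_iff, mem_singleton_iff] at hy hz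
          rcases hy with rfl | rfl <;> rcases hz with rfl | rfl
          · exact absurd rfl hyz
          · show y.1.toAdd + (b + y.1.toAdd) ∈ E b
            rwa [add_left_comm, add_self', add_zero]
          · show b + z.1.toAdd + z.1.toAdd ∈ E b
            rwa [add_assoc, add_self', add_zero]
          · exact absurd rfl hyz
        have h2 := hB.2 h1 (by
          intro y hy
          rw [mem_singleton_iff] at hy
          rw [hy]
          exact mem_insert _ _)
        exact hne (mem_singleton_iff.1 (h2 (mem_insert_of_mem _ (mem_singleton _))))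

lemma card_le (hb : wt b = 5) [Infinite I] {B : Set (Multiplicative (I →₀ ZMod 2) × N)}
    (h : Direct (A j b N) B) : #B ≤ #I := by
  rw [direct_iff j hb] at h
  have h1 : #B ≤ #(I →₀ ZMod 2) := by
    refine Cardinal.mk_le_of_injective (f := fun x : B => x.1.1.toAdd) ?_
    intro x y hxy
    by_contra hne
    have h2 := h x x.2 y y.2 (fun h => hne (Subtype.ext h))
    have h3 : (x : Multiplicative (I →₀ ZMod 2) × N).1.toAdd =
      (y : Multiplicative (I →₀ ZMod 2) × N).1.toAdd := hxy
    rw [h3, add_self'] at h2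
    exact zero_notMem_E hb h2
  refine h1.trans ?_
  exact (card_V I).le

lemma upper_eq (hb : wt b = 5) [Infinite I] : upper (A j b N) = #I := by
  apply le_antisymm
  · refine csSup_le' ?_
    rintro _ ⟨B, hB, rfl⟩
    exact card_le j hb hB.1
  · have h0 : Direct (A j b N)
        (range fun i : I => ((Multiplicative.ofAdd (Finsupp.single i (1 : ZMod 2)), 1) :
          Multiplicative (I →₀ ZMod 2) × N)) := by
      rw [direct_iff j hb]
      rintro _ ⟨i, rfl⟩ _ ⟨k, rfl⟩ hik
      left
      exact ⟨i, k, fun h => hik (by rw [h]), rfl⟩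
    obtain ⟨B, hB1, hB2⟩ := zorn_subset_nonempty {B | Direct (A j b N) B} (by
          intro c hc hch _
          refine ⟨⋃₀ c, ?_, fun s hs => subset_sUnion_of_mem hs⟩
          show Direct _ _
          rw [direct_iff j hb]
          rintro x ⟨s, hs, hxs⟩ y ⟨t, ht, hyt⟩ hxy
          rcases hch.total hs ht with h | h
          · exact (direct_iff j hb t).1 (hc ht) x (h hxs) y hyt hxy
          · exact (direct_iff j hb s).1 (hc hs) x hxs y (h hyt) hxy) _ h0
    have h1 : #I ≤ #B := by
      refine Cardinal.mk_le_of_injective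
        (f := fun i : I => (⟨_, hB1 (mem_range_self i)⟩ : B)) ?_
      intro i k hik
      have h2 := congrArg (fun z : B => z.1.1.toAdd) hik
      have h3 : Finsupp.single i (1 : ZMod 2) = Finsupp.single k 1 := h2
      exact (Finsupp.single_left_inj one_ne_zero).1 h3
    refine h1.trans (le_csSup ?_ ⟨B, hB2, rfl⟩)
    refine ⟨#I, ?_⟩
    rintro _ ⟨B', hB', rfl⟩
    exact card_le j hb hB'.1

end

lemma exists_data (α : Cardinal.{u}) (hα : ℵ₀ ≤ α) (N : Type u) [Group N] :
    ∃ (V : Type u) (_ : CommGroup V) (A : Set (V × N)), lower A = 2 ∧ upper A = α := by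
  induction α using Cardinal.inductionOn with
  | mk I =>
    have hinf : Infinite I := Cardinal.infinite_iff.2 hα
    have hemb : Nonempty ((I →₀ ZMod 2) × ℕ ↪ I) := by
      rw [← Cardinal.le_def, Cardinal.mk_prod, card_V, Cardinal.lift_uzero, Cardinal.mk_nat,
        Cardinal.lift_aleph0]
      exact (Cardinal.mul_eq_left hα hα Cardinal.aleph0_ne_zero).le
    obtain ⟨j⟩ := hemb
    obtain ⟨T, hT⟩ := Infinite.exists_subset_card_eq I 5
    have hb : wt (xv T) = 5 := by rw [wt, support_xv, hT]
    exact ⟨Multiplicative (I →₀ ZMod 2), inferInstance, A j (xv T) N, lower_eq j hb,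
      upper_eq j hb⟩

/-- **For every infinite cardinal `α` there are an abelian and a non-abelian group with a subset of
right lower subindex `2` and right upper subindex `α`.** -/
theorem result (α : Cardinal.{u}) (hα : ℵ₀ ≤ α) :
    (∃ (G : Type u) (_ : CommGroup G) (A : Set G), lower A = 2 ∧ upper A = α) ∧
    (∃ (G : Type u) (_ : Group G) (A : Set G), (¬ ∀ x y : G, x * y = y * x) ∧
      lower A = 2 ∧ upper A = α) := by
  constructor
  · obtain ⟨V, hV, A, h1, h2⟩ := exists_data α hα PUnit.{u + 1}
    exact ⟨V × PUnit.{u + 1}, inferInstance, A, h1, h2⟩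
  · obtain ⟨V, hV, A, h1, h2⟩ := exists_data α hα (ULift.{u} (Equiv.Perm (Fin 3)))
    refine ⟨V × ULift.{u} (Equiv.Perm (Fin 3)), inferInstance, A, ?_, h1, h2⟩
    intro h
    have h3 := h (1, ⟨Equiv.swap 0 1⟩) (1, ⟨Equiv.swap 1 2⟩)
    have h4 : Equiv.swap (0 : Fin 3) 1 * Equiv.swap 1 2 = Equiv.swap 1 2 * Equiv.swap 0 1 :=
      congrArg (fun z : V × ULift.{u} (Equiv.Perm (Fin 3)) => z.2.down) h3
    exact absurd h4 (by decide)

end Pool.Agent.Results.MP_453038_al.Subindices
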